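import Pool.Agent.W619.Y.LMain

/-! The Kodaira dimension equals the numerical dimension for log canonical divisors on quotients
of (generically finite covers of) products of a variety and curves. -/

set_option autoImplicit false
set_option linter.overlappingInstances false

universe u

open FF IntermediateField Pool.Agent.W619.PQ Pool.Agent.W619.PL Pool.Agent.W619.TW
  Pool.Agent.W619.X Pool.Agent.W619.Y

namespace Pool.Agent.Results.MP_2c56d9_ag.MixedOpenQuotients

/-- Let `Y` be a projective variety of dimension `d` with function field `M` (for instance a
point), `Z` a projective variety of dimension `d + n` with function field `L`, `F i` (`i < n`) the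
function fields of curves `C i`, with a generically finite rational map from `Z` to the product of
`Y` and the curves (`halg`), `G` a finite group of automorphisms of `L` which permutes the curves
through `σ`, `B i` a finite set of points of the quotient of `C i` by its stabilizer, such that the
`B i` are permuted by `G`, `X` a projective manifold birational to `Z / G` with a morphism to the
quotient of the product of the curves by `G`, and `D` the reduced preimage of the `B i`, a divisor
with normal crossings. Assume `LogMixedPos`, for instance that the fixed locus of each `g ≠ 1` in `G` on the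
product of the curves is empty or of codimension at least `7`. Let `h` be the
number of the curves which are not flat (`C i` minus the preimage of `B i` is not elliptic or the
projective line minus two points). If `κ (Y) ≥ a` and none of the open curves `C i` minus the
preimage of `B i` is the projective line or the affine line, then `κ (K_X + D) ≥ a + h`. Let `Z` be
the product. If `ν (Y) ≤ a` and none of the open curves is the projective line or the affine line,
then `ν (K_X + D) ≤ a + h`. If `ν (Y) = -∞`, or one of the open curves is the projective line or the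
affine line, then `ν (K_X + D) = -∞`. If `K_X + D` is pseudo-effective, then `K_Y` is, and none of
the open curves is the projective line or the affine line. So `κ = ν` for `Y` implies `κ = ν` for
`K_X + D`. -/
theorem result {L : Type u} [Field L] [Algebra ℂ L] (d n : ℕ)
    (hn : Algebra.trdeg ℂ L = (d + n : ℕ))
    (M : IntermediateField ℂ L) [Algebra.EssFiniteType ℂ M] (hM : Algebra.trdeg ℂ M = d)
    (F : Fin n → IntermediateField ℂ L) (hF : ∀ i, IsFF ℂ (F i))
    (halg : Algebra.IsAlgebraic ↥(M ⊔ ⨆ i, F i) L)
    (G : Subgroup (L ≃ₐ[ℂ] L)) [Finite G] (σ : G →* Equiv.Perm (Fin n))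
    (hσ : ∀ (g : G) i, ∀ z ∈ F i, (g : L ≃ₐ[ℂ] L) z ∈ F (σ g i))
    (B : ∀ i, Set (Place ℂ ↥(F i ⊓ fixedField (stb G σ i)))) (hB : ∀ i, (B i).Finite)
    (hinv : BdInv G σ F B) (h : LogMixedPos G σ F B) :
    ((∀ i, ¬ IsNegative inf_le_left (B i)) → ∀ a, KodTr ℂ M d a →
      KodTrB ℂ (fixedField G) (d + n) (BdQ G σ F B)
        (a + {i | ¬ IsFlat inf_le_left (B i)}.ncard) ∧
      KodGe ℂ (fixedField G) (d + n) (BdQ G σ F B)
        (a + {i | ¬ IsFlat inf_le_left (B i)}.ncard)) ∧
    (M ⊔ (⨆ i, F i) = ⊤ →
      ((∀ i, ¬ IsNegative inf_le_left (B i)) → ∀ a, NumLe ℂ M d (fun _ => False) a →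
        NumLe ℂ (fixedField G) (d + n) (BdQ G σ F B)
          (a + {i | ¬ IsFlat inf_le_left (B i)}.ncard)) ∧
      ((NumNeg ℂ M d (fun _ => False) ∨ ∃ i, IsNegative inf_le_left (B i)) →
        NumNeg ℂ (fixedField G) (d + n) (BdQ G σ F B)) ∧
      (IsPsef ℂ (fixedField G) (d + n) (BdQ G σ F B) → IsPsef ℂ M d (fun _ => False) ∧
        ∀ i, ¬ IsNegative inf_le_left (B i))) := by
  exact abLM d n hn M hM F halg G σ hσ B hB hinv h

end Pool.Agent.Results.MP_2c56d9_ag.MixedOpenQuotients
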