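import Pool.Agent.W619.X.Fin

/-! The Kodaira dimension equals the numerical dimension for log canonical divisors on quotients
of products of curves. -/

set_option autoImplicit false
set_option linter.overlappingInstances false

universe u

open FF IntermediateField Pool.Agent.W619.PQ Pool.Agent.W619.PL Pool.Agent.W619.TW
  Pool.Agent.W619.X

namespace Pool.Agent.Results.MP_2c56d9_ag.OpenProductQuotients

/-- Let `L` be the function field of a product of `n` curves `C i` with function fields `F i`, `G` a
finite group of automorphisms of `L` preserving each `F i`, `B i` a finite set of points of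
`C i / G`, `X` a projective manifold birational to the quotient of the product by `G` with morphisms
to the curves `C i / G`, and `D` the reduced preimage of the `B i`, a divisor with normal crossings.
Assume `LogPosCond`, for instance that each `g ≠ 1` in `G` moves at least `7` of the curves, or that
each `g ≠ 1` moves at least `2` of the curves and each `C i / G` is irrational or has at least `5`
branch points. Then `κ (K_X + D) = ν (K_X + D)`. Both are `-∞` if one of the open curves `C i` minus
the preimage of `B i` is the projective line or the affine line: for each `A`, `m (K_X + D) + A` has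
no sections for large `m`. Otherwise both are the number `h` of curves which are not flat (`C i`
minus the preimage of `B i` is not elliptic or the projective line minus two points):
`h⁰ (j m₀ (K_X + D)) ≥ j ^ h` for some `m₀` and all `j`, and `h⁰ (m (K_X + D) + A) ≤ C m ^ h` for
each `A`. -/
theorem result {L : Type u} [Field L] [Algebra ℂ L] (n : ℕ) (hn : Algebra.trdeg ℂ L = n)
    (F : Fin n → IntermediateField ℂ L) (hF : ∀ i, IsFF ℂ (F i))
    (hsup : ⨆ i, F i = ⊤)
    (G : Subgroup (L ≃ₐ[ℂ] L)) [Finite G] (hst : ∀ i, ∀ g ∈ G, ∀ z ∈ F i, g z ∈ F i)
    (B : ∀ i, Set (Place ℂ ↥(F i ⊓ fixedField G))) (hB : ∀ i, (B i).Finite)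
    (h : LogPosCond G F B) :
    ((∃ i, IsNegative inf_le_left (B i)) → NumNeg ℂ (fixedField G) n (QBd F G B)) ∧
    ((∀ i, ¬ IsNegative inf_le_left (B i)) →
      KodGe ℂ (fixedField G) n (QBd F G B) {i | ¬ IsFlat inf_le_left (B i)}.ncard ∧
      NumLe ℂ (fixedField G) n (QBd F G B) {i | ¬ IsFlat inf_le_left (B i)}.ncard) := by
  have h1 := knL n hn F hF (alg_of_sup F hsup) G hst B hB h
  exact ⟨h1.2 hsup, fun h2 => ⟨(h1.1 h2).1, (h1.1 h2).2 hsup⟩⟩

end Pool.Agent.Results.MP_2c56d9_ag.OpenProductQuotients
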