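import Pool.Agent.W602.GT.KFin

/-!
MP_2c56d9_ag, Q1: the logarithmic Kodaira dimension of quasi-projective varieties given by few
monomials with large exponents.
-/

set_option autoImplicit false

namespace Pool.Agent.Results.MP_2c56d9_ag.SparseLogVarieties

open Pool.Agent.W602.GT

/-- Let `V` be an irreducible component, of dimension `w`, of the open part `x_j ≠ 0` (`j` in `U`)
of a projective variety given by forms with at most `s` monomials, the exponents of the `x_j`, `j`
not in `U`, being highly divisible. Either `V` is covered by affine lines `t ↦ (t ^ b_j x_j)` and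
its logarithmic Kodaira dimension is `-∞`, or a diagonal torus of some dimension `p` acts on `V`
with finite kernel and its logarithmic Kodaira dimension is `h = w - p`. -/
theorem result {k : Type} [Field k] [IsAlgClosed k] [CharZero k] {n : ℕ} {ι : Type}
    {U : Set (Fin (n + 1))} {F : ι → MvPolynomial (Fin (n + 1)) k} {s N : ℕ}
    (hF : ∀ e, IsPowSparse U s N (F e)) (hN : n * ((s + 1) * ((s - 1) * (s - 2) / 2)) ≤ N)
    {K : Type} [Field K] [Algebra k K] {w : ℕ} {y : Fin (n + 1) → K} (hy : SubVarU U F K w y)
    (hcomp : IsComponentU U F y) :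
    ((∃ b, Contracts U k y b) ∧ ¬ KodGe k K w (OffU U y) 0) ∨
    ∃ (h p : ℕ) (b : Fin p → Fin (n + 1) → ℤ), h + p = w ∧ (∀ l, Acts U k y (b l)) ∧
      (∀ c : Fin p → ℤ, (∀ j j', y j ≠ 0 → y j' ≠ 0 →
        ∑ l, c l * b l j = ∑ l, c l * b l j') → c = 0) ∧
      KodGe k K w (OffU U y) h ∧ ¬ KodGe k K w (OffU U y) (h + 1) :=
  kod_final hF hN hy hcomp

end Pool.Agent.Results.MP_2c56d9_ag.SparseLogVarieties
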