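import Pool.Agent.W603.GY.Main2

/-!
MP_2c56d9_ag, Q1: the logarithmic Kodaira dimension of quasi-projective varieties given by sums of
few high powers of linear forms, with any number of boundary divisors.
-/

set_option autoImplicit false

namespace Pool.Agent.Results.MP_2c56d9_ag.WaringLogKodaira

open Pool.Agent.W602.GT Pool.Agent.W603.GW Pool.Agent.W603.GX Pool.Agent.W603.GY

/-- Let `V` be an irreducible component, of dimension `w`, of the quasi-projective variety
`F_i = 0`, `Q_j ≠ 0`, the `F_i` and the (finitely many) `Q_j` being sums of few high powers of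
linear forms, and let `(Y, D)` be a log smooth pair such that `Y` minus `D` is a resolution of `V`.
Either `K_Y + D` is not pseudo-effective and `V` is covered by affine lines, or `V` is covered by
tori of some dimension `q`, complements of `q + 1` independent hyperplanes in linear spaces, and
the Kodaira dimension of `K_Y + D` is `w - q`. -/
theorem result {k : Type} [Field k] [IsAlgClosed k] [CharZero k] {n : ℕ} {ι κ : Type} [Finite κ]
    {F : ι → MvPolynomial (Fin (n + 1)) k} {Q : κ → MvPolynomial (Fin (n + 1)) k} {S N : ℕ}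
    (hF : ∀ i, IsPowSum S N (F i)) (hQ : ∀ j, IsPowSum (S - 1) N (Q j))
    (hN1 : 1 ≤ N) (hN : n * ((S + 1) * ((S - 1) * (S - 2) / 2)) ≤ N) {K : Type} [Field K]
    [Algebra k K] {w : ℕ} {y : Fin (n + 1) → K} (hy : SubVarQ F Q K w y)
    (hcomp : IsComponentQ F Q y) :
    (¬ Psef k K w (OffAny Q y) ∧ AffLine Q y) ∨
      ∃ h q : ℕ, h + q = w ∧ KodGe k K w (OffAny Q y) h ∧ ¬ KodGe k K w (OffAny Q y) (h + 1) ∧
        TorusSpan Q y q :=
  kodaira hF hQ hN1 hN hy hcomp

end Pool.Agent.Results.MP_2c56d9_ag.WaringLogKodaira
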